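import Mathlib
import Pool.Agent.Lib.MP_85963d_gt.Interfaces

/-!
# Limits of weak solutions (used in LINB and BORD)
-/

set_option autoImplicit false

open MeasureTheory Set Filter Topology Quaternion
open scoped Real ContDiff

namespace Pool.Agent.MP85963d.H86

open SF

/-! ### generalities on plain functions -/

theorem cts_SF (F : SF) : Cts (F : ℍ → ℝ) where
  cont := F.continuousOn
  hom := fun _ x hr _ => F.hom hr x

theorem cts_add {f g : ℍ → ℝ} (hf : Cts f) (hg : Cts g) : Cts (fun x => f x + g x) where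
  cont := hf.cont.add hg.cont
  hom := fun r x hr hx => by rw [hf.hom r x hr hx, hg.hom r x hr hx]

theorem cts_mul {f g : ℍ → ℝ} (hf : Cts f) (hg : Cts g) : Cts (fun x => f x * g x) where
  cont := hf.cont.mul hg.cont
  hom := fun r x hr hx => by rw [hf.hom r x hr hx, hg.hom r x hr hx]

theorem cts_congr {f g : ℍ → ℝ} (hf : Cts f) (h : ∀ x : ℍ, x ≠ 0 → g x = f x) : Cts g where
  cont := hf.cont.congr fun x hx => h x hx
  hom := fun r x hr hx => by rw [h x hx, h _ (smul_ne0 hr hx), hf.hom r x hr hx]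

theorem exists_bound_shell {f : ℍ → ℝ} (hf : ContinuousOn f {0}ᶜ) :
    ∃ M : ℝ, 0 ≤ M ∧ ∀ x ∈ shell, |f x| ≤ M := by
  obtain ⟨M, hM⟩ := isCompact_shell.exists_bound_of_continuousOn (hf.mono shell_subset)
  refine ⟨max M 0, le_max_right _ _, fun x hx => ?_⟩
  have := hM x hx
  rw [Real.norm_eq_abs] at this
  exact this.trans (le_max_left _ _)

/-- every non-zero quaternion is a multiple of a point of the shell -/
theorem exists_smul_shell {x : ℍ} (hx : x ≠ 0) : ∃ r : ℝ, r ≠ 0 ∧ r • x ∈ shell := by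
  have hn : ‖x‖ ≠ 0 := norm_ne_zero_iff.2 hx
  refine ⟨3 / 2 / ‖x‖, by positivity, ?_⟩
  have : ‖(3 / 2 / ‖x‖ : ℝ) • x‖ = 3 / 2 := by
    rw [norm_smul, Real.norm_of_nonneg (by positivity)]
    field_simp
  constructor <;> rw [this] <;> norm_num

theorem exists_bound {f : ℍ → ℝ} (hf : Cts f) :
    ∃ M : ℝ, 0 ≤ M ∧ ∀ x : ℍ, x ≠ 0 → |f x| ≤ M := by
  obtain ⟨M, hM0, hM⟩ := exists_bound_shell hf.cont
  refine ⟨M, hM0, fun x hx => ?_⟩
  obtain ⟨r, hr, hrx⟩ := exists_smul_shell hx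
  rw [← hf.hom r x hr hx]
  exact hM _ hrx

theorem exists_bound_SF (F : SF) : ∃ M : ℝ, 0 ≤ M ∧ ∀ x : ℍ, |F x| ≤ M := by
  obtain ⟨M, hM0, hM⟩ := exists_bound (cts_SF F)
  refine ⟨M, hM0, fun x => ?_⟩
  by_cases hx : x = 0
  · subst hx
    rw [F.map_zero', abs_zero]
    exact hM0
  · exact hM x hx

/-! ### words -/

theorem word_add (l : List (Fin 6)) (F G : SF) : word l (F + G) = word l F + word l G := by
  induction l with
  | nil => rfl
  | cons i l ih =>
    change Dlet i (word l (F + G)) = Dlet i (word l F) + Dlet i (word l G)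
    rw [ih, map_add]

theorem word_smul (l : List (Fin 6)) (c : ℝ) (F : SF) : word l (c • F) = c • word l F := by
  induction l with
  | nil => rfl
  | cons i l ih =>
    change Dlet i (word l (c • F)) = c • Dlet i (word l F)
    rw [ih, Derivation.map_smul]

/-- all words of bounded length of an element of `SF` are bounded -/
theorem exists_Bd (N : ℕ) (F : SF) : ∃ B : ℝ, 0 ≤ B ∧ Bd N B F := by
  have hfin : {l : List (Fin 6) | l.length ≤ N}.Finite := List.finite_length_le _ N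
  choose M hM0 hM using fun l : List (Fin 6) => exists_bound_SF (word l F)
  obtain ⟨B, hB⟩ := (hfin.image M).bddAbove
  refine ⟨max B 0, le_max_right _ _, fun l hl x => (hM l x).trans ?_⟩
  exact (hB (mem_image_of_mem M hl)).trans (le_max_left _ _)

theorem Bd_mono {N : ℕ} {B B' : ℝ} (h : B ≤ B') {F : SF} (hF : Bd N B F) : Bd N B' F :=
  fun l hl x => (hF l hl x).trans h

theorem Bd_add {N : ℕ} {B B' : ℝ} {F G : SF} (hF : Bd N B F) (hG : Bd N B' G) :
    Bd N (B + B') (F + G) := fun l hl x => by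
  rw [word_add, add_apply]
  exact (abs_add_le _ _).trans (add_le_add (hF l hl x) (hG l hl x))

theorem Bd_smul {N : ℕ} {B : ℝ} {F : SF} (c : ℝ) (hF : Bd N B F) :
    Bd N (|c| * B) (c • F) := fun l hl x => by
  rw [word_smul, smul_apply, abs_mul]
  exact mul_le_mul_of_nonneg_left (hF l hl x) (abs_nonneg c)

/-! ### symmetry classes -/

theorem IsU.klein {f : ℍ → ℝ} (h : IsU f) : IsKlein f where
  mulI := fun x => by simpa [rot_pi] using h.rotI x π
  mulK := h.mulK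

theorem IsE.klein {f : ℍ → ℝ} (h : IsE f) : IsKlein f where
  mulI := h.mulI
  mulK := fun x => by simpa [rot_pi] using h.rotK x π

theorem klein_add {f g : ℍ → ℝ} (hf : IsKlein f) (hg : IsKlein g) :
    IsKlein (fun x => f x + g x) where
  mulI := fun x => by rw [hf.mulI x, hg.mulI x]
  mulK := fun x => by rw [hf.mulK x, hg.mulK x]

theorem klein_mul {f g : ℍ → ℝ} (hf : IsKlein f) (hg : IsKlein g) :
    IsKlein (fun x => f x * g x) where
  mulI := fun x => by rw [hf.mulI x, hg.mulI x]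
  mulK := fun x => by rw [hf.mulK x, hg.mulK x]

theorem isE_add {F G : SF} (hF : IsE F) (hG : IsE G) : IsE (F + G : SF) where
  rotK := fun x t => by simp only [add_apply, hF.rotK x t, hG.rotK x t]
  mulI := fun x => by simp only [add_apply, hF.mulI x, hG.mulI x]

theorem isE_smul {F : SF} (c : ℝ) (hF : IsE F) : IsE (c • F : SF) where
  rotK := fun x t => by simp only [smul_apply, hF.rotK x t]
  mulI := fun x => by simp only [smul_apply, hF.mulI x]

theorem mode_add {k : ℕ} {F G : SF} (hF : Mode k F) (hG : Mode k G) : Mode k (F + G : SF) where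
  rot := fun α x => by
    have h1 := hF.rot α x
    have h2 := hG.rot α x
    simp only [add_apply]; linarith
  mulJ := fun x => by simp only [add_apply, hF.mulJ x, hG.mulJ x]

theorem mode_smul {k : ℕ} {F : SF} (c : ℝ) (hF : Mode k F) : Mode k (c • F : SF) where
  rot := fun α x => by
    have h1 := hF.rot α x
    simp only [smul_apply]
    rw [← mul_add, h1]; ring
  mulJ := fun x => by simp only [smul_apply, hF.mulJ x]

/-! ### limits of integrals -/

theorem tendsto_int {f : ℕ → ℍ → ℝ} {F : ℍ → ℝ} (hf : ∀ m, ContinuousOn (f m) {0}ᶜ) (B : ℝ)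
    (hB : ∀ᶠ m in atTop, ∀ x ∈ shell, |f m x| ≤ B)
    (hlim : ∀ x ∈ shell, Tendsto (fun m => f m x) atTop (𝓝 (F x))) :
    Tendsto (fun m => ∫ x in shell, f m x) atTop (𝓝 (∫ x in shell, F x)) := by
  have hfin : IsFiniteMeasure (volume.restrict shell) :=
    ⟨by simpa using isCompact_shell.measure_lt_top⟩
  refine tendsto_integral_filter_of_dominated_convergence (fun _ => B) ?_ ?_
    (integrable_const B) ?_
  · exact Eventually.of_forall fun m =>
      ((hf m).mono shell_subset).aestronglyMeasurable measurableSet_shell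
  · filter_upwards [hB] with m hm
    rw [ae_restrict_iff' measurableSet_shell]
    exact Eventually.of_forall fun x hx => by
      rw [Real.norm_eq_abs]
      exact hm x hx
  · rw [ae_restrict_iff' measurableSet_shell]
    exact Eventually.of_forall fun x hx => hlim x hx

theorem tendsto_at {f : ℕ → ℍ → ℝ} {F : ℍ → ℝ} (h : TendstoUniformlyOn f F atTop {0}ᶜ)
    {x : ℍ} (hx : x ≠ 0) : Tendsto (fun m => f m x) atTop (𝓝 (F x)) :=
  h.tendsto_at (by simpa using hx)

theorem eventually_bound {f : ℕ → ℍ → ℝ} {F : ℍ → ℝ} (hF : Cts F)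
    (h : TendstoUniformlyOn f F atTop {0}ᶜ) :
    ∃ M : ℝ, 0 ≤ M ∧ ∀ᶠ m in atTop, ∀ x ∈ shell, |f m x| ≤ M := by
  obtain ⟨M, hM0, hM⟩ := exists_bound hF
  refine ⟨M + 1, by linarith, ?_⟩
  filter_upwards [Metric.tendstoUniformlyOn_iff.1 h 1 one_pos] with m hm x hx
  have hx0 := ne_zero_of_mem_shell hx
  have h1 := hm x (by simpa using hx0)
  rw [Real.dist_eq] at h1
  have h2 := hM x hx0
  have h3 : f m x = F x - (F x - f m x) := by ring
  rw [h3]
  exact (abs_sub _ _).trans (by linarith)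

/-! ### the weights -/

theorem wS_eq (hWS : WSFacts) {p : SF} (hp : Adm p) {x : ℍ} (hx : x ≠ 0) : wf p x = (wS p) x :=
  (hWS.wS_apply p hp x hx).symm

theorem cts_wf (hWS : WSFacts) {p : SF} (hp : Adm p) : Cts (wf p) :=
  cts_congr (cts_SF (wS p)) fun _ hx => wS_eq hWS hp hx

theorem Bil_congr {w w' : ℍ → ℝ} (h : ∀ x : ℍ, x ≠ 0 → w x = w' x) (y η : SF) :
    Bil w y η = Bil w' y η := by
  refine setIntegral_congr_fun measurableSet_shell fun x hx => ?_
  rw [h x (ne_zero_of_mem_shell hx)]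

theorem avgK_congr {f g : ℍ → ℝ} (h : ∀ x : ℍ, x ≠ 0 → f x = g x) {x : ℍ} (hx : x ≠ 0) :
    avgK f x = avgK g x := by
  unfold avgK
  congr 1
  refine intervalIntegral.integral_congr fun t _ => ?_
  exact h _ (rrot_ne_zero isImUnit_K hx t)

theorem cont_rotK {f : ℍ → ℝ} (hf : ContinuousOn f {0}ᶜ) {x : ℍ} (hx : x ≠ 0) :
    Continuous (fun t => f (x * rot qK t)) := by
  rw [← continuousOn_univ]
  refine hf.comp (continuous_const.mul (continuous_rot qK)).continuousOn fun t _ => ?_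
  exact rrot_ne_zero isImUnit_K hx t

theorem avgK_add {f g : ℍ → ℝ} (hf : ContinuousOn f {0}ᶜ) (hg : ContinuousOn g {0}ᶜ) {x : ℍ}
    (hx : x ≠ 0) : avgK (fun z => f z + g z) x = avgK f x + avgK g x := by
  unfold avgK
  rw [intervalIntegral.integral_add ((cont_rotK hf hx).intervalIntegrable _ _)
    ((cont_rotK hg hx).intervalIntegrable _ _)]
  ring

theorem avgK_isE {f : ℍ → ℝ} (hf : IsE f) (x : ℍ) : avgK f x = f x := by
  unfold avgK
  simp only [hf.rotK]
  rw [intervalIntegral.integral_const]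
  simp only [sub_zero, smul_eq_mul]
  field_simp

/-! ### the limit lemma -/

theorem sum_two (c : Fin 2 → ℝ) (b : Fin 2 → SF) (x : ℍ) :
    (c 0 • b 0 + c 1 • b 1 : SF) x = ∑ i, c i * (b i) x := by
  rw [Fin.sum_univ_two, add_apply, smul_apply, smul_apply]

theorem limit_lemma (hLinen : LinenStatement) (hComp : CompStatement) (hDens : DensFacts)
    (hMode : ModeFacts) (hFam : FamFacts) (hWS : WSFacts) (hMN : MNFacts)
    {p₀ p₁ : SF} (h0 : Adm p₀) (h1 : Adm p₁) (r0 : RotInv p₀) (r1 : RotInv p₁)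
    {k : ℕ} (hk : 1 ≤ k) (b : Fin 2 → SF) (hbE : ∀ i, IsE (b i)) (hbM : ∀ i, Mode k (b i))
    (s : ℕ → ℝ) (hs : ∀ m, s m ∈ Icc (0:ℝ) 1) (n : ℕ → ℕ) (hn : Tendsto n atTop atTop)
    (y : ℕ → SF) (hy : ∀ m, y m ∈ SNk k (n m)) (c : ℕ → Fin 2 → ℝ) (R : ℝ)
    (hyR : ∀ m, nrm (y m) ≤ R) (hcR : ∀ m i, |c m i| ≤ R)
    (heq : ∀ m, ∀ η ∈ SNk k (n m),
      Bil (wS (seg p₀ p₁ (s m))) (y m) η + ∑ i, c m i * ip (b i) (psi η) = 0) :
    ∃ (φ : ℕ → ℕ) (s' : ℝ) (z : ℍ → ℝ) (γ : Fin 2 → ℝ), StrictMono φ ∧ s' ∈ Icc (0:ℝ) 1 ∧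
      Tendsto (fun m => s (φ m)) atTop (𝓝 s') ∧ Cts z ∧ IsU z ∧ Mode k z ∧
      (∀ i, Tendsto (fun m => c (φ m) i) atTop (𝓝 (γ i))) ∧
      Tendsto (fun m => nrm (y (φ m))) atTop (𝓝 (nrm z)) ∧
      (∀ P : SF, Tendsto (fun m => ip (y (φ m)) P) atTop (𝓝 (ip z P))) ∧
      (∀ x : ℍ, x ≠ 0 →
        avgK (fun x => wf (seg p₀ p₁ s') x * z x) x + ∑ i, γ i * (b i) x = 0) := by
  have hR0 : 0 ≤ R := (nrm_nonneg _).trans (hyR 0)
  -- admissibility
  have hadm : ∀ t ∈ Icc (0:ℝ) 1, Adm (seg p₀ p₁ t) := hWS.seg_adm p₀ p₁ h0 h1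
  have hrot : ∀ t : ℝ, RotInv (seg p₀ p₁ t) := hWS.seg_rotInv p₀ p₁ r0 r1
  -- right hand sides
  set bb : ℕ → SF := fun m => c m 0 • b 0 + c m 1 • b 1 with hbb
  have hbbE : ∀ m, IsE (bb m) := fun m => isE_add (isE_smul _ (hbE 0)) (isE_smul _ (hbE 1))
  have hbbM : ∀ m, Mode k (bb m) := fun m => mode_add (mode_smul _ (hbM 0)) (mode_smul _ (hbM 1))
  have hbbip : ∀ m (ψ : SF), ip (bb m) ψ = ∑ i, c m i * ip (b i) ψ := fun m ψ => by
    rw [hbb, Fin.sum_univ_two]
    change ip (c m 0 • b 0 + c m 1 • b 1 : SF) ψ = _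
    rw [ip_add_left, ip_smul_left, ip_smul_left]
  -- weak solutions against all of `EN`
  have hker : ∀ m, ∀ ψ ∈ EN (n m),
      ip (fun x => (wS (seg p₀ p₁ (s m))) x * (y m) x + (bb m) x) ψ = 0 := fun m =>
    hMode.ker k (n m) hk _ (cts_SF _) (hWS.wS_klein _ (hadm _ (hs m)))
      (hWS.wS_rotInv _ (hadm _ (hs m)) (hrot _)) (y m) (hy m) (bb m) (hbbE m) (hbbM m)
      fun η hη => by rw [hbbip]; exact heq m η hη
  -- bounds
  obtain ⟨c₀, hc0, hlow⟩ := hFam.low p₀ p₁ h0 h1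
  obtain ⟨B, hB⟩ := hFam.bd p₀ p₁ h0 h1 6
  obtain ⟨C, hC⟩ := hLinen c₀ B hc0
  obtain ⟨B0, hB0, hBd0⟩ := exists_Bd 6 (b 0)
  obtain ⟨B1, hB1, hBd1⟩ := exists_Bd 6 (b 1)
  have hbbd : ∀ m, Bd 6 (R * B0 + R * B1) (bb m) := fun m =>
    Bd_add (Bd_mono (mul_le_mul_of_nonneg_right (hcR m 0) hB0) (Bd_smul _ hBd0))
      (Bd_mono (mul_le_mul_of_nonneg_right (hcR m 1) hB1) (Bd_smul _ hBd1))
  have hen : ∀ m, ener (y m) ≤ |C| * (R + (R * B0 + R * B1)) := fun m => by
    have h := hC (wS (seg p₀ p₁ (s m))) (hWS.wS_klein _ (hadm _ (hs m)))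
      (fun x hx => (hlow _ (hs m) x hx).2.2) (hB _ (hs m)).2 _ (bb m) (hbbE m) (hbbd m) (n m)
      (y m) (hy m).1 (hker m)
    refine h.trans ((mul_le_mul_of_nonneg_right (le_abs_self C) ?_).trans
      (mul_le_mul_of_nonneg_left ?_ (abs_nonneg C)))
    · have := nrm_nonneg (y m)
      positivity
    · have := hyR m
      linarith
  -- subsequences
  have hcomp1 : IsCompact (Icc (0:ℝ) 1 ×ˢ Icc (fun _ : Fin 2 => -R) (fun _ => R)) :=
    isCompact_Icc.prod isCompact_Icc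
  obtain ⟨⟨s', γ⟩, hsγ, φ₁, hφ₁, hlim₁⟩ := hcomp1.tendsto_subseq (x := fun m => (s m, c m))
    fun m => ⟨hs m, fun i => (abs_le.1 (hcR m i)).1, fun i => (abs_le.1 (hcR m i)).2⟩
  obtain ⟨φ₂, z, q, hφ₂, hz, -, hzU, hz0, hzu, -, -⟩ :=
    hComp (fun m => y (φ₁ m)) _ (fun m => (hy _).1.2) fun m => hen _
  set φ : ℕ → ℕ := fun m => φ₁ (φ₂ m) with hφdef
  have hφ : StrictMono φ := hφ₁.comp hφ₂
  have hlim2 : Tendsto (fun m => (s (φ m), c (φ m))) atTop (𝓝 (s', γ)) :=
    hlim₁.comp hφ₂.tendsto_atTop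
  have hslim : Tendsto (fun m => s (φ m)) atTop (𝓝 s') := (Prod.tendsto_iff _ _).1 hlim2 |>.1
  have hclim : ∀ i, Tendsto (fun m => c (φ m) i) atTop (𝓝 (γ i)) := fun i =>
    (tendsto_pi_nhds.1 ((Prod.tendsto_iff _ _).1 hlim2 |>.2)) i
  have hs' : s' ∈ Icc (0:ℝ) 1 := hsγ.1
  have hzpt : ∀ x : ℍ, Tendsto (fun m => (y (φ m)) x) atTop (𝓝 (z x)) := fun x => by
    by_cases hx : x = 0
    · subst hx
      simp only [map_zero', hz0]
      exact tendsto_const_nhds
    · exact tendsto_at hzu hx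
  have hzM : Mode k z := by
    constructor
    · intro α x
      have h1 : Tendsto (fun m => (y (φ m)) (rot qK α * x) + (y (φ m)) (rot qK (-α) * x)) atTop
          (𝓝 (z (rot qK α * x) + z (rot qK (-α) * x))) := (hzpt _).add (hzpt _)
      have h2 : Tendsto (fun m => 2 * Real.cos (k * α) * (y (φ m)) x) atTop
          (𝓝 (2 * Real.cos (k * α) * z x)) := (hzpt x).const_mul _
      refine tendsto_nhds_unique h1 (h2.congr fun m => ?_)
      exact ((hy (φ m)).2.rot α x).symm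
    · intro x
      refine tendsto_nhds_unique (hzpt _) ((hzpt x).congr fun m => ?_)
      exact ((hy (φ m)).2.mulJ x).symm
  obtain ⟨M, hM0, hM⟩ := eventually_bound hz hzu
  -- norms
  have hnrm : Tendsto (fun m => nrm (y (φ m))) atTop (𝓝 (nrm z)) := by
    refine (Real.continuous_sqrt.tendsto _).comp (tendsto_int (fun m => ?_) (M ^ 2) ?_ ?_)
    · exact (y (φ m)).continuousOn.pow 2
    · filter_upwards [hM] with m hm x hx
      rw [abs_pow]
      exact pow_le_pow_left₀ (abs_nonneg _) (hm x hx) 2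
    · intro x _
      exact (hzpt x).pow 2
  have hip : ∀ P : SF, Tendsto (fun m => ip (y (φ m)) P) atTop (𝓝 (ip z P)) := fun P => by
    obtain ⟨MP, hMP0, hMP⟩ := exists_bound_SF P
    refine tendsto_int (fun m => ?_) (M * MP) ?_ ?_
    · exact (y (φ m)).continuousOn.mul P.continuousOn
    · filter_upwards [hM] with m hm x hx
      rw [abs_mul]
      exact mul_le_mul (hm x hx) (hMP x) (abs_nonneg _) hM0
    · intro x _
      exact (hzpt x).mul_const _
  -- the limit equation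
  set W : SF := wS (seg p₀ p₁ s') with hW
  have hwlim : ∀ x : ℍ, Tendsto (fun m => (wS (seg p₀ p₁ (s (φ m)))) x) atTop (𝓝 (W x)) := by
    intro x
    rw [Metric.tendsto_atTop]
    intro ε hε
    obtain ⟨δ, hδ, hδ'⟩ := hFam.cont p₀ p₁ h0 h1 0 (ε / 2) (by linarith)
    obtain ⟨N, hN⟩ := Metric.tendsto_atTop.1 hslim δ hδ
    refine ⟨N, fun m hm => ?_⟩
    have h2 := hδ' _ (hs (φ m)) _ hs' (by simpa [Real.dist_eq] using hN m hm) [] (by simp) x
    rw [Real.dist_eq]
    have h3 : (word [] (wS (seg p₀ p₁ (s (φ m))) - wS (seg p₀ p₁ s'))) x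
        = (wS (seg p₀ p₁ (s (φ m)))) x - W x := by
      rw [← sub_apply]; rfl
    rw [h3] at h2
    linarith
  have hFcts : Cts (fun x => W x * z x + (γ 0 • b 0 + γ 1 • b 1 : SF) x) :=
    cts_add (cts_mul (cts_SF W) hz) (cts_SF _)
  have hFE : IsE (γ 0 • b 0 + γ 1 • b 1 : SF) := isE_add (isE_smul _ (hbE 0)) (isE_smul _ (hbE 1))
  have hFklein : IsKlein (fun x => W x * z x + (γ 0 • b 0 + γ 1 • b 1 : SF) x) :=
    klein_add (klein_mul (hWS.wS_klein _ (hadm _ hs')) (IsU.klein hzU)) (IsE.klein hFE)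
  have hzero : ∀ N, ∀ ψ ∈ EN N,
      ip (fun x => W x * z x + (γ 0 • b 0 + γ 1 • b 1 : SF) x) ψ = 0 := by
    intro N ψ hψ
    obtain ⟨Mψ, hMψ0, hMψ⟩ := exists_bound_SF ψ
    obtain ⟨Mb, hMb0, hMb⟩ : ∃ Mb : ℝ, 0 ≤ Mb ∧ ∀ m x, |(bb m) x| ≤ Mb :=
      ⟨R * B0 + R * B1, by positivity, fun m x => hbbd m [] (by simp) x⟩
    obtain ⟨Mw, hMw0, hMw⟩ : ∃ Mw : ℝ, 0 ≤ Mw ∧ ∀ m x, |(wS (seg p₀ p₁ (s m))) x| ≤ Mw :=
      ⟨B, (abs_nonneg _).trans ((hB _ (hs 0)).2 [] (by simp) 0),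
        fun m x => (hB _ (hs m)).2 [] (by simp) x⟩
    have hT : Tendsto (fun m => ip (fun x => (wS (seg p₀ p₁ (s (φ m)))) x * (y (φ m)) x
        + (bb (φ m)) x) ψ) atTop
        (𝓝 (ip (fun x => W x * z x + (γ 0 • b 0 + γ 1 • b 1 : SF) x) ψ)) := by
      refine tendsto_int (fun m => ?_) ((Mw * M + Mb) * Mψ) ?_ ?_
      · exact (((wS (seg p₀ p₁ (s (φ m)))).continuousOn.mul (y (φ m)).continuousOn).add
          (bb (φ m)).continuousOn).mul ψ.continuousOn
      · filter_upwards [hM] with m hm x hx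
        rw [abs_mul]
        refine mul_le_mul ?_ (hMψ x) (abs_nonneg _) (by positivity)
        refine (abs_add_le _ _).trans (add_le_add ?_ (hMb _ x))
        rw [abs_mul]
        exact mul_le_mul (hMw _ x) (hm x hx) (abs_nonneg _) hMw0
      · intro x _
        refine Tendsto.mul_const _ (((hwlim x).mul (hzpt x)).add ?_)
        have e : ∀ m, (bb (φ m)) x = c (φ m) 0 * (b 0) x + c (φ m) 1 * (b 1) x := fun m => by
          change (c (φ m) 0 • b 0 + c (φ m) 1 • b 1 : SF) x = _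
          rw [add_apply, smul_apply, smul_apply]
        simp only [e, add_apply, smul_apply]
        exact ((hclim 0).mul_const _).add ((hclim 1).mul_const _)
    refine tendsto_nhds_unique hT ?_
    refine tendsto_const_nhds.congr' ?_
    have hφn : Tendsto (fun m => n (φ m)) atTop atTop := hn.comp hφ.tendsto_atTop
    filter_upwards [hφn.eventually_ge_atTop N] with m hm
    exact (hker (φ m) ψ ⟨hMN.mono N _ hm hψ.1, hψ.2⟩).symm
  refine ⟨φ, s', z, γ, hφ, hs', hslim, hz, hzU, hzM, hclim, hnrm, hip, fun x hx => ?_⟩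
  have h1 := hDens.zero _ hFcts hFklein hzero x hx
  rw [avgK_add (cts_mul (cts_SF W) hz).cont (SF.continuousOn _) hx, avgK_isE hFE x, sum_two] at h1
  rw [← h1]
  congr 1
  refine avgK_congr (fun x hx => ?_) hx
  rw [wS_eq hWS (hadm _ hs') hx]

end Pool.Agent.MP85963d.H86
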