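import Mathlib
import Pool.Agent.Lib.MP_85963d_gt.H86.Limit

/-!
# LINB: local constancy of the signs near nonsingular parameters
-/

set_option autoImplicit false

open MeasureTheory Set Filter Topology Quaternion
open scoped Real ContDiff

namespace Pool.Agent.MP85963d.H86

open SF

theorem nrm_smul (c : ℝ) (F : SF) : nrm (c • F : SF) = |c| * nrm F := by
  have h : nrm (c • F : SF) ^ 2 = (|c| * nrm F) ^ 2 := by
    rw [nrm_sq', ip_smul_left, ip_smul_right, mul_pow, nrm_sq', sq_abs]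
    ring
  exact (pow_left_inj₀ (nrm_nonneg _) (mul_nonneg (abs_nonneg _) (nrm_nonneg _))
    two_ne_zero).1 h

theorem Bil_smul_left (w : ℍ → ℝ) (c : ℝ) (y η : SF) : Bil w (c • y) η = c * Bil w y η := by
  unfold Bil
  rw [← integral_const_mul]
  congr 1
  funext x
  rw [smul_apply]
  ring

theorem nrm_pos {y : SF} (h : y ≠ 0) : 0 < nrm y :=
  lt_of_le_of_ne (nrm_nonneg y) fun h0 => h (eq_zero_of_nrm h0.symm)

theorem nrm_eq_zero_of {z : ℍ → ℝ} (h : ∀ x : ℍ, x ≠ 0 → z x = 0) : nrm z = 0 := by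
  unfold nrm
  rw [Real.sqrt_eq_zero', setIntegral_congr_fun (g := fun _ => (0:ℝ)) measurableSet_shell
    (fun x hx => by simp [h x (ne_zero_of_mem_shell hx)])]
  simp

theorem detW_congr {W : Submodule ℝ SF} {d : ℕ} (b : Module.Basis (Fin d) ℝ W) {w w' : ℍ → ℝ}
    (h : ∀ x : ℍ, x ≠ 0 → w x = w' x) : detW b w = detW b w' := by
  unfold detW
  congr 1
  ext i j
  exact Bil_congr h _ _

theorem PosDet_congr {W : Submodule ℝ SF} {w w' : ℍ → ℝ} (h : ∀ x : ℍ, x ≠ 0 → w x = w' x)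
    (hW : PosDet W w) : PosDet W w' := by
  obtain ⟨d, b, hb⟩ := hW
  exact ⟨d, b, by rwa [← detW_congr b h]⟩

theorem NegDet_congr {W : Submodule ℝ SF} {w w' : ℍ → ℝ} (h : ∀ x : ℍ, x ≠ 0 → w x = w' x)
    (hW : NegDet W w) : NegDet W w' := by
  obtain ⟨d, b, hb⟩ := hW
  exact ⟨d, b, by rwa [← detW_congr b h]⟩

/-- clamp to the unit interval -/
noncomputable def clamp (t : ℝ) : ℝ := max 0 (min 1 t)

theorem clamp_mem (t : ℝ) : clamp t ∈ Icc (0:ℝ) 1 :=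
  ⟨le_max_left _ _, max_le zero_le_one (min_le_left _ _)⟩

theorem clamp_of_mem {t : ℝ} (h : t ∈ Icc (0:ℝ) 1) : clamp t = t := by
  unfold clamp
  rw [min_eq_right h.2, max_eq_right h.1]

theorem continuous_clamp : Continuous clamp :=
  continuous_const.max (continuous_const.min continuous_id)

/-- continuity of the weights along the segment -/
theorem wS_cont (hFam : FamFacts) {p₀ p₁ : SF} (h0 : Adm p₀) (h1 : Adm p₁) (ε : ℝ) (hε : 0 < ε) :
    ∃ δ : ℝ, 0 < δ ∧ ∀ s ∈ Icc (0:ℝ) 1, ∀ s' ∈ Icc (0:ℝ) 1, |s - s'| < δ → ∀ x : ℍ,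
      |(wS (seg p₀ p₁ s)) x - (wS (seg p₀ p₁ s')) x| ≤ ε := by
  obtain ⟨δ, hδ, h⟩ := hFam.cont p₀ p₁ h0 h1 0 ε hε
  refine ⟨δ, hδ, fun s hs s' hs' hss x => ?_⟩
  have h2 := h s hs s' hs' hss [] (by simp) x
  have h3 : (word [] (wS (seg p₀ p₁ s) - wS (seg p₀ p₁ s'))) x
      = (wS (seg p₀ p₁ s)) x - (wS (seg p₀ p₁ s')) x := by
    rw [← sub_apply]; rfl
  rwa [h3] at h2

theorem linB_nonsing (hLinen : LinenStatement) (hComp : CompStatement) (hDens : DensFacts)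
    (hMode : ModeFacts) (hFam : FamFacts) (hWS : WSFacts) (hMN : MNFacts)
    {p₀ p₁ : SF} (h0 : Adm p₀) (h1 : Adm p₁) (r0 : RotInv p₀) (r1 : RotInv p₁)
    {k : ℕ} (hk : 1 ≤ k) {s₀ : ℝ}
    (htriv : KerTriv k (wf (seg p₀ p₁ s₀))) :
    ∃ δ : ℝ, 0 < δ ∧ ∃ N₀ : ℕ, ∀ s ∈ Icc (0:ℝ) 1, |s - s₀| < δ → ∀ n : ℕ, N₀ ≤ n →
      ∀ y ∈ SNk k n, (∀ η ∈ SNk k n, Bil (wS (seg p₀ p₁ s)) y η = 0) → y = 0 := by
  by_contra hcon
  push Not at hcon
  have h := fun m : ℕ => hcon (1 / ((m:ℝ) + 1)) (by positivity) m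
  choose s hs hsd n hn y hy heq hy0 using h
  have hpos : ∀ m, 0 < nrm (y m) := fun m => nrm_pos (hy0 m)
  have hnrm : ∀ m, nrm ((nrm (y m))⁻¹ • y m : SF) = 1 := fun m => by
    rw [nrm_smul, abs_of_pos (inv_pos.2 (hpos m)), inv_mul_cancel₀ (hpos m).ne']
  obtain ⟨φ, s', z, γ, hφ, hs', hslim, hz, hzU, hzM, hclim, hnlim, -, hzeq⟩ :=
    limit_lemma hLinen hComp hDens hMode hFam hWS hMN h0 h1 r0 r1 hk (fun _ => 0)
      (fun _ => ⟨fun x t => by simp, fun x => by simp⟩)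
      (fun _ => ⟨fun α x => by simp, fun x => by simp⟩)
      s hs n (tendsto_atTop_mono hn tendsto_id) (fun m => (nrm (y m))⁻¹ • y m)
      (fun m => (SNk k (n m)).smul_mem _ (hy m)) (fun _ _ => 0) 1 (fun m => (hnrm m).le)
      (fun m i => by simp)
      (fun m η hη => by rw [Bil_smul_left, heq m η hη]; simp)
  have hs'0 : s' = s₀ := by
    refine tendsto_nhds_unique hslim ?_
    rw [Metric.tendsto_atTop]
    intro ε hε
    obtain ⟨N, hN⟩ := exists_nat_one_div_lt hε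
    refine ⟨N, fun m hm => ?_⟩
    rw [Real.dist_eq]
    refine (hsd (φ m)).trans_le (le_trans ?_ hN.le)
    apply one_div_le_one_div_of_le (by positivity)
    have h2 : N ≤ φ m := hm.trans (hφ.id_le m)
    have h3 : (N:ℝ) ≤ φ m := by exact_mod_cast h2
    linarith
  subst hs'0
  have hz0 := htriv z hz hzU hzM fun x hx => by
    have := hzeq x hx
    simpa using this
  have h1' : nrm z = 1 := by
    refine tendsto_nhds_unique hnlim ?_
    simp only [hnrm]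
    exact tendsto_const_nhds
  rw [nrm_eq_zero_of hz0] at h1'
  exact zero_ne_one h1'

/-- LINB -/
theorem linB_of (hLinen : LinenStatement) (hComp : CompStatement) (hDens : DensFacts)
    (hMode : ModeFacts) (hDet : DetFacts) (hFam : FamFacts) (hWS : WSFacts) (hMN : MNFacts) :
    LinBStatement := by
  intro p₀ p₁ h0 h1 r0 r1 k hk s₀ hs₀ htriv
  obtain ⟨δ, hδ, N₀, hN₀⟩ := linB_nonsing hLinen hComp hDens hMode hFam hWS hMN h0 h1 r0 r1 hk
    htriv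
  refine ⟨δ, hδ, N₀, fun s hs hss n hn => ?_⟩
  have hadm : ∀ t ∈ Icc (0:ℝ) 1, Adm (seg p₀ p₁ t) := hWS.seg_adm p₀ p₁ h0 h1
  have hkey : ∀ a ∈ Icc (0:ℝ) 1, ∀ b ∈ Icc (0:ℝ) 1, a ≤ b → (∀ t ∈ Icc a b, |t - s₀| < δ) →
      ((PosDet (SNk k n) (wf (seg p₀ p₁ a)) ∧ PosDet (SNk k n) (wf (seg p₀ p₁ b))) ∨
      (NegDet (SNk k n) (wf (seg p₀ p₁ a)) ∧ NegDet (SNk k n) (wf (seg p₀ p₁ b)))) := by
    intro a ha b hb hab hd
    have h := hDet.homot (SNk k n) n (fun t => (wS (seg p₀ p₁ (clamp t)) : ℍ → ℝ))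
      (fun t => cts_SF _) (fun F hF => hF.1) (fun t ht ε hε => by
        obtain ⟨δ', hδ', h'⟩ := wS_cont hFam h0 h1 ε hε
        refine ⟨δ', hδ', fun t' ht' htt x _ => ?_⟩
        simp only [clamp_of_mem ht, clamp_of_mem ht']
        exact h' t ht t' ht' htt x) a ha b hb hab (fun t ht y hy hy' => by
        have ht' : t ∈ Icc (0:ℝ) 1 := ⟨ha.1.trans ht.1, ht.2.trans hb.2⟩
        simp only [clamp_of_mem ht'] at hy'
        exact hN₀ t ht' (hd t ht) n hn y hy hy')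
    simp only [clamp_of_mem ha, clamp_of_mem hb] at h
    have ea : ∀ x : ℍ, x ≠ 0 → (wS (seg p₀ p₁ a)) x = wf (seg p₀ p₁ a) x :=
      fun x hx => (wS_eq hWS (hadm a ha) hx).symm
    have eb : ∀ x : ℍ, x ≠ 0 → (wS (seg p₀ p₁ b)) x = wf (seg p₀ p₁ b) x :=
      fun x hx => (wS_eq hWS (hadm b hb) hx).symm
    rcases h with ⟨h1, h2⟩ | ⟨h1, h2⟩
    · exact Or.inl ⟨PosDet_congr ea h1, PosDet_congr eb h2⟩
    · exact Or.inr ⟨NegDet_congr ea h1, NegDet_congr eb h2⟩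
  rcases le_total s s₀ with h | h
  · exact hkey s hs s₀ hs₀ h fun t ht => by
      rw [abs_lt] at hss ⊢
      exact ⟨by linarith [ht.1], by linarith [ht.2]⟩
  · have := hkey s₀ hs₀ s hs h fun t ht => by
      rw [abs_lt] at hss ⊢
      exact ⟨by linarith [ht.1], by linarith [ht.2]⟩
    rcases this with ⟨h1, h2⟩ | ⟨h1, h2⟩
    · exact Or.inl ⟨h2, h1⟩
    · exact Or.inr ⟨h2, h1⟩

end Pool.Agent.MP85963d.H86
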