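import Mathlib
import Pool.Agent.Lib.MP_85963d_gt.H86.LinB

/-!
# BORD: comparison of two bodies by bordering
-/

set_option autoImplicit false

open MeasureTheory Set Filter Topology Quaternion
open scoped Real ContDiff

namespace Pool.Agent.MP85963d.H86

open SF

/-- the pairing as a bilinear map -/
noncomputable def ipL : SF →ₗ[ℝ] SF →ₗ[ℝ] ℝ :=
  LinearMap.mk₂ ℝ (fun F G => ip F G) (fun F G K => ip_add_left F G K)
    (fun c F K => ip_smul_left c F K) (fun K F G => ip_add_right F G K)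
    (fun c K F => ip_smul_right c F K)

theorem ipL_apply (F G : SF) : ipL F G = ip F G := rfl

theorem Bil_eq (w y η : SF) : Bil w y η = ip (w * y : SF) (psi η) := by
  unfold Bil ip
  simp only [mul_apply]

/-- equation of the bordered problem -/
def Weak (b : Fin 2 → SF) (w : SF) (n : ℕ) (y : SF) (c : Fin 2 → ℝ) : Prop :=
  ∀ η ∈ SNk 4 n, Bil w y η + ∑ i, c i * ip (b i) (psi η) = 0

theorem weak_smul {b : Fin 2 → SF} {w : SF} {n : ℕ} {y : SF} {c : Fin 2 → ℝ}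
    (h : Weak b w n y c) (r : ℝ) : Weak b w n (r • y) (fun i => r * c i) := by
  intro η hη
  have h1 := h η hη
  rw [Bil_smul_left]
  have : ∑ i, r * c i * ip (b i) (psi η) = r * ∑ i, c i * ip (b i) (psi η) := by
    rw [Finset.mul_sum]
    exact Finset.sum_congr rfl fun i _ => by ring
  rw [this, ← mul_add, h1, mul_zero]

theorem nrm_zero' : nrm (0 : SF) = 0 := nrm_eq_zero_of fun x _ => zero_apply x

section

variable (hLinen : LinenStatement) (hComp : CompStatement) (hDens : DensFacts)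
  (hMode : ModeFacts) (hFam : FamFacts) (hWS : WSFacts) (hMN : MNFacts)
  {p₀ p₁ : SF} (h0 : Adm p₀) (h1 : Adm p₁) (r0 : RotInv p₀) (r1 : RotInv p₁)
  {P b : Fin 2 → SF} (hbE : ∀ i, IsE (b i)) (hbM : ∀ i, Mode 4 (b i))

include hLinen hComp hDens hMode hFam hWS hMN h0 h1 r0 r1 hbE hbM

/-- uniform injectivity of the bordered problems -/
theorem bord_inj
    (H1 : ∀ s ∈ Icc (0:ℝ) 1, ∀ (y : ℍ → ℝ) (c : Fin 2 → ℝ), Cts y → IsU y → Mode 4 y →
      (∀ x : ℍ, x ≠ 0 → avgK (fun z => wf (seg p₀ p₁ s) z * y z) x + ∑ i, c i * (b i) x = 0) →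
      (∀ i, ip y (P i) = 0) → (∀ x : ℍ, x ≠ 0 → y x = 0) ∧ c = 0) :
    ∃ N₀ : ℕ, ∀ n : ℕ, N₀ ≤ n → ∀ s ∈ Icc (0:ℝ) 1, ∀ y ∈ SNk 4 n, ∀ c : Fin 2 → ℝ,
      Weak b (wS (seg p₀ p₁ s)) n y c → (∀ i, ip y (P i) = 0) → y = 0 ∧ c = 0 := by
  by_contra hcon
  push Not at hcon
  choose n hn s hs y hy c heq hP hne using hcon
  set R : ℕ → ℝ := fun m => nrm (y m) + |c m 0| + |c m 1| with hR
  have hRpos : ∀ m, 0 < R m := by
    intro m
    by_contra hneg
    have e0 := nrm_nonneg (y m)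
    have e1 := abs_nonneg (c m 0)
    have e2 := abs_nonneg (c m 1)
    have hle : nrm (y m) + |c m 0| + |c m 1| ≤ 0 := not_lt.1 hneg
    have f0 : nrm (y m) = 0 := by linarith
    have f1 : |c m 0| = 0 := by linarith
    have f2 : |c m 1| = 0 := by linarith
    refine hne m (eq_zero_of_nrm f0) ?_
    funext i
    fin_cases i
    · simpa using abs_eq_zero.1 f1
    · simpa using abs_eq_zero.1 f2
  have hyn : ∀ m, nrm ((R m)⁻¹ • y m : SF) = nrm (y m) / R m := fun m => by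
    rw [nrm_smul, abs_of_pos (inv_pos.2 (hRpos m))]
    ring
  have hcn : ∀ m i, |(R m)⁻¹ * c m i| = |c m i| / R m := fun m i => by
    rw [abs_mul, abs_of_pos (inv_pos.2 (hRpos m))]
    ring
  have hci : ∀ m i, |c m i| ≤ R m := by
    intro m i
    have e0 := nrm_nonneg (y m)
    have e1 := abs_nonneg (c m 0)
    have e2 := abs_nonneg (c m 1)
    fin_cases i
    · change |c m 0| ≤ nrm (y m) + |c m 0| + |c m 1|
      linarith
    · change |c m 1| ≤ nrm (y m) + |c m 0| + |c m 1|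
      linarith
  have hyi : ∀ m, nrm (y m) ≤ R m := by
    intro m
    have e1 := abs_nonneg (c m 0)
    have e2 := abs_nonneg (c m 1)
    change nrm (y m) ≤ nrm (y m) + |c m 0| + |c m 1|
    linarith
  obtain ⟨φ, s', z, γ, hφ, hs', hslim, hz, hzU, hzM, hclim, hnlim, hiplim, hzeq⟩ :=
    limit_lemma hLinen hComp hDens hMode hFam hWS hMN h0 h1 r0 r1 (by norm_num) b hbE hbM
      s hs n (tendsto_atTop_mono hn tendsto_id) (fun m => (R m)⁻¹ • y m)
      (fun m => (SNk 4 (n m)).smul_mem _ (hy m)) (fun m i => (R m)⁻¹ * c m i) 1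
      (fun m => by rw [hyn]; exact (div_le_one (hRpos m)).2 (hyi m))
      (fun m i => by rw [hcn]; exact (div_le_one (hRpos m)).2 (hci m i))
      (fun m => weak_smul (heq m) _)
  have hPz : ∀ i, ip z (P i) = 0 := by
    intro i
    refine tendsto_nhds_unique (hiplim (P i)) ?_
    refine tendsto_const_nhds.congr fun m => ?_
    rw [ip_smul_left, hP (φ m) i, mul_zero]
  obtain ⟨hz0, hγ0⟩ := H1 s' hs' z γ hz hzU hzM hzeq hPz
  have hsum : Tendsto (fun m => nrm ((R (φ m))⁻¹ • y (φ m) : SF) + |(R (φ m))⁻¹ * c (φ m) 0|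
      + |(R (φ m))⁻¹ * c (φ m) 1|) atTop (𝓝 (nrm z + |γ 0| + |γ 1|)) :=
    (hnlim.add (hclim 0).abs).add (hclim 1).abs
  have hone : ∀ m, nrm ((R (φ m))⁻¹ • y (φ m) : SF) + |(R (φ m))⁻¹ * c (φ m) 0|
      + |(R (φ m))⁻¹ * c (φ m) 1| = 1 := by
    intro m
    rw [hyn, hcn, hcn, ← add_div, ← add_div]
    exact div_self (hRpos _).ne'
  simp only [hone] at hsum
  have h3 := tendsto_nhds_unique hsum tendsto_const_nhds
  rw [nrm_eq_zero_of hz0, hγ0] at h3
  simp at h3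

/-- convergence of the `c`-part of the bordered problems with data `e` -/
theorem bord_lim {s : ℝ} (hs : s ∈ Icc (0:ℝ) 1) (C : Matrix (Fin 2) (Fin 2) ℝ)
    (H1 : ∀ (y : ℍ → ℝ) (c : Fin 2 → ℝ), Cts y → IsU y → Mode 4 y →
      (∀ x : ℍ, x ≠ 0 → avgK (fun z => wf (seg p₀ p₁ s) z * y z) x + ∑ i, c i * (b i) x = 0) →
      (∀ i, ip y (P i) = 0) → (∀ x : ℍ, x ≠ 0 → y x = 0) ∧ c = 0)
    (H2 : ∀ (y : ℍ → ℝ) (c : Fin 2 → ℝ), Cts y → IsU y → Mode 4 y →
      (∀ x : ℍ, x ≠ 0 → avgK (fun z => wf (seg p₀ p₁ s) z * y z) x + ∑ i, c i * (b i) x = 0) →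
      c = C.mulVec fun i => ip y (P i)) (e : Fin 2 → ℝ) {ε : ℝ} (hε : 0 < ε) :
    ∃ N₀ : ℕ, ∀ n : ℕ, N₀ ≤ n → ∀ y ∈ SNk 4 n, ∀ c : Fin 2 → ℝ,
      Weak b (wS (seg p₀ p₁ s)) n y c → (∀ i, ip y (P i) = e i) →
      ∀ i, |c i - (C.mulVec e) i| ≤ ε := by
  by_contra hcon
  push Not at hcon
  choose n hn y hy c heq hP i₀ hi₀ using hcon
  set R : ℕ → ℝ := fun m => 1 + nrm (y m) + |c m 0| + |c m 1| with hR
  have hRpos : ∀ m, 0 < R m := by
    intro m
    have e0 := nrm_nonneg (y m)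
    have e1 := abs_nonneg (c m 0)
    have e2 := abs_nonneg (c m 1)
    change 0 < 1 + nrm (y m) + |c m 0| + |c m 1|
    linarith
  have hyn : ∀ m, nrm ((R m)⁻¹ • y m : SF) = nrm (y m) / R m := fun m => by
    rw [nrm_smul, abs_of_pos (inv_pos.2 (hRpos m))]
    ring
  have hcn : ∀ m i, |(R m)⁻¹ * c m i| = |c m i| / R m := fun m i => by
    rw [abs_mul, abs_of_pos (inv_pos.2 (hRpos m))]
    ring
  have hci : ∀ m i, |c m i| ≤ R m := by
    intro m i
    have e0 := nrm_nonneg (y m)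
    have e1 := abs_nonneg (c m 0)
    have e2 := abs_nonneg (c m 1)
    fin_cases i
    · change |c m 0| ≤ 1 + nrm (y m) + |c m 0| + |c m 1|
      linarith
    · change |c m 1| ≤ 1 + nrm (y m) + |c m 0| + |c m 1|
      linarith
  have hyi : ∀ m, nrm (y m) ≤ R m := by
    intro m
    have e1 := abs_nonneg (c m 0)
    have e2 := abs_nonneg (c m 1)
    change nrm (y m) ≤ 1 + nrm (y m) + |c m 0| + |c m 1|
    linarith
  obtain ⟨φ, s', z, γ, hφ, hs', hslim, hz, hzU, hzM, hclim, hnlim, hiplim, hzeq⟩ :=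
    limit_lemma hLinen hComp hDens hMode hFam hWS hMN h0 h1 r0 r1 (by norm_num) b hbE hbM
      (fun _ => s) (fun _ => hs) n (tendsto_atTop_mono hn tendsto_id) (fun m => (R m)⁻¹ • y m)
      (fun m => (SNk 4 (n m)).smul_mem _ (hy m)) (fun m i => (R m)⁻¹ * c m i) 1
      (fun m => by rw [hyn]; exact (div_le_one (hRpos m)).2 (hyi m))
      (fun m i => by rw [hcn]; exact (div_le_one (hRpos m)).2 (hci m i))
      (fun m => weak_smul (heq m) _)
  have hss : s' = s := tendsto_nhds_unique hslim tendsto_const_nhds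
  subst hss
  -- the limit of `1 / R`
  set τ : ℝ := 1 - nrm z - |γ 0| - |γ 1| with hτ
  have hτlim : Tendsto (fun m => (R (φ m))⁻¹) atTop (𝓝 τ) := by
    have hsum : Tendsto (fun m => 1 - nrm ((R (φ m))⁻¹ • y (φ m) : SF)
      - |(R (φ m))⁻¹ * c (φ m) 0| - |(R (φ m))⁻¹ * c (φ m) 1|) atTop (𝓝 τ) :=
      ((tendsto_const_nhds.sub hnlim).sub (hclim 0).abs).sub (hclim 1).abs
    refine hsum.congr fun m => ?_
    rw [hyn, hcn, hcn]
    have h4 := hRpos (φ m)
    have h5 : R (φ m) = 1 + nrm (y (φ m)) + |c (φ m) 0| + |c (φ m) 1| := rfl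
    field_simp
    rw [h5]
    ring
  have hPz : ∀ i, ip z (P i) = τ * e i := by
    intro i
    refine tendsto_nhds_unique (hiplim (P i)) ?_
    refine (hτlim.mul_const (e i)).congr fun m => ?_
    rw [ip_smul_left, hP (φ m) i]
  have hγ := H2 z γ hz hzU hzM hzeq
  have hγ' : ∀ i, γ i = τ * (C.mulVec e) i := by
    intro i
    have h6 : (fun i => ip z (P i)) = τ • e := by
      funext i; rw [hPz i]; rfl
    rw [hγ, h6, Matrix.mulVec_smul]
    rfl
  have hτ0 : τ ≠ 0 := by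
    intro h7
    obtain ⟨hz0, hγ0⟩ := H1 z γ hz hzU hzM hzeq fun i => by rw [hPz i, h7, zero_mul]
    rw [hτ, nrm_eq_zero_of hz0, hγ0] at h7
    simp at h7
  have hclim' : ∀ i, Tendsto (fun m => c (φ m) i) atTop (𝓝 ((C.mulVec e) i)) := by
    intro i
    have h8 := (hclim i).div hτlim hτ0
    rw [hγ' i, mul_div_cancel_left₀ _ hτ0] at h8
    refine h8.congr fun m => ?_
    have h4 := hRpos (φ m)
    simp only [Pi.div_apply]
    field_simp
  have hev : ∀ᶠ m in atTop, ∀ i, |c (φ m) i - (C.mulVec e) i| ≤ ε := by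
    rw [eventually_all]
    intro i
    filter_upwards [Metric.tendsto_nhds.1 (hclim' i) ε hε] with m hm
    rw [Real.dist_eq] at hm
    exact hm.le
  obtain ⟨m, hm⟩ := hev.exists
  exact absurd (hm (i₀ (φ m))) (not_le.2 (hi₀ (φ m)))

omit hbE hbM r0 r1 hLinen hComp hDens hMode hMN hWS in
theorem continuous_Bil (y η : SF) :
    Continuous (fun s => Bil (wS (seg p₀ p₁ (clamp s))) y η) := by
  rw [continuous_iff_seqContinuous]
  intro σ σ₀ hσ
  obtain ⟨B, hB⟩ := hFam.bd p₀ p₁ h0 h1 6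
  have hB0 : 0 ≤ B := (abs_nonneg _).trans ((hB _ (clamp_mem 0)).2 [] (by simp) 0)
  obtain ⟨M1, hM10, hM1⟩ := exists_bound_SF y
  obtain ⟨M2, hM20, hM2⟩ := exists_bound_SF (psi η)
  refine tendsto_int (fun m => ?_) (B * M1 * M2) ?_ ?_
  · exact ((SF.continuousOn _).mul y.continuousOn).mul (psi η).continuousOn
  · refine Eventually.of_forall fun m x _ => ?_
    rw [abs_mul, abs_mul]
    refine mul_le_mul (mul_le_mul ?_ (hM1 x) (abs_nonneg _) hB0) (hM2 x) (abs_nonneg _)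
      (by positivity)
    exact (hB _ (clamp_mem (σ m))).2 [] (by simp) x
  · intro x _
    refine Tendsto.mul_const _ (Tendsto.mul_const _ ?_)
    have hcl : Tendsto (fun m => clamp (σ m)) atTop (𝓝 (clamp σ₀)) :=
      (continuous_clamp.tendsto σ₀).comp hσ
    rw [Metric.tendsto_atTop]
    intro ε hε
    obtain ⟨δ, hδ, hδ'⟩ := wS_cont hFam h0 h1 (ε / 2) (by linarith)
    obtain ⟨N, hN⟩ := Metric.tendsto_atTop.1 hcl δ hδ
    refine ⟨N, fun m hm => ?_⟩
    have h2 := hδ' _ (clamp_mem (σ m)) _ (clamp_mem σ₀)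
      (by simpa [Real.dist_eq] using hN m hm) x
    rw [Real.dist_eq]
    linarith

end

theorem exists_basis {V : Type*} [AddCommGroup V] [Module ℝ V] (S W : Submodule ℝ V)
    (h : Module.Finite ℝ S) (hW : W ≤ S) : ∃ d : ℕ, Nonempty (Module.Basis (Fin d) ℝ W) := by
  have := h
  have : FiniteDimensional ℝ W := Submodule.finiteDimensional_of_le hW
  exact ⟨_, ⟨Module.finBasis ℝ W⟩⟩

theorem basis_comb {V : Type*} [AddCommGroup V] [Module ℝ V] (W : Submodule ℝ V) {d : ℕ}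
    (bs : Module.Basis (Fin d) ℝ W) (v : Fin d → ℝ) (h : ∑ j, v j • (bs j : V) = 0) : v = 0 := by
  have h1 : (∑ j, v j • bs j : W) = 0 := by
    apply Subtype.ext
    rw [Submodule.coe_sum]
    exact h
  funext j
  exact Fintype.linearIndependent_iff.1 bs.linearIndependent v h1 j

/-- signs of determinants of nearby matrices -/
theorem det_near (C : Matrix (Fin 2) (Fin 2) ℝ) (hC : C.det ≠ 0) :
    ∃ ε : ℝ, 0 < ε ∧ ∀ M : Matrix (Fin 2) (Fin 2) ℝ, (∀ i j, |M i j - C i j| ≤ ε) →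
      0 < M.det * C.det := by
  set f : (Fin 2 → Fin 2 → ℝ) → ℝ := fun A => (A 0 0 * A 1 1 - A 0 1 * A 1 0) * C.det with hf
  have hcont : Continuous f := by
    rw [hf]
    fun_prop
  have hfC : 0 < f (fun i j => C i j) := by
    rw [hf]
    simp only
    rw [← Matrix.det_fin_two]
    exact mul_self_pos.2 hC
  obtain ⟨δ, hδ, h⟩ := Metric.continuous_iff.1 hcont (fun i j => C i j) _ hfC
  refine ⟨δ / 2, by linarith, fun M hM => ?_⟩
  have h1 := h (fun i j => M i j) (by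
    refine lt_of_le_of_lt ?_ (half_lt_self hδ)
    refine (dist_pi_le_iff (by linarith)).2 fun i => (dist_pi_le_iff (by linarith)).2 fun j => ?_
    rw [Real.dist_eq]
    exact hM i j)
  rw [Real.dist_eq, abs_lt] at h1
  have h2 : 0 < f (fun i j => M i j) := by linarith [h1.1]
  rw [hf] at h2
  simp only at h2
  rwa [← Matrix.det_fin_two] at h2

/-! ### the matrices -/

section

variable {n d : ℕ} (bs : Module.Basis (Fin d) ℝ (SNk 4 n)) (w : SF) (P b : Fin 2 → SF)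

/-- the matrix of the form -/
noncomputable def matB : Matrix (Fin d) (Fin d) ℝ :=
  Matrix.of fun i j => Bil w (bs j : SF) (bs i : SF)

/-- the matrix of the right border -/
noncomputable def matβ : Matrix (Fin d) (Fin 2) ℝ :=
  Matrix.of fun i j => ip (b j) (psi (bs i : SF))

/-- the matrix of the lower border -/
noncomputable def matπ : Matrix (Fin 2) (Fin d) ℝ :=
  Matrix.of fun i j => ip (bs j : SF) (P i)

/-- the bordered matrix -/
noncomputable def matM : Matrix (Fin d ⊕ Fin 2) (Fin d ⊕ Fin 2) ℝ :=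
  Matrix.fromBlocks (matB bs w) (matβ bs b) (matπ bs P) 0

/-- linear combinations of the basis -/
noncomputable def comb (v : Fin d → ℝ) : SF := ∑ j, v j • (bs j : SF)

theorem comb_mem (v : Fin d → ℝ) : comb bs v ∈ SNk 4 n :=
  Submodule.sum_mem _ fun j _ => Submodule.smul_mem _ _ (bs j).2

theorem comb_eq_zero {v : Fin d → ℝ} (h : comb bs v = 0) : v = 0 :=
  basis_comb (SNk 4 n) bs v h

theorem Bil_comb (v : Fin d → ℝ) (η : SF) :
    Bil w (comb bs v) η = ∑ j, Bil w (bs j : SF) η * v j := by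
  rw [Bil_eq, ← ipL_apply, comb, Finset.mul_sum, map_sum, LinearMap.sum_apply]
  refine Finset.sum_congr rfl fun j _ => ?_
  rw [mul_smul_comm, map_smul, LinearMap.smul_apply, ipL_apply, ← Bil_eq, smul_eq_mul, mul_comm]

theorem ip_comb (v : Fin d → ℝ) (K : SF) :
    ip (comb bs v) K = ∑ j, ip (bs j : SF) K * v j := by
  rw [← ipL_apply, comb, map_sum, LinearMap.sum_apply]
  refine Finset.sum_congr rfl fun j _ => ?_
  rw [map_smul, LinearMap.smul_apply, ipL_apply, smul_eq_mul, mul_comm]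

theorem matB_mulVec (v : Fin d → ℝ) (i : Fin d) :
    (matB bs w).mulVec v i = Bil w (comb bs v) (bs i : SF) := by
  rw [Bil_comb]
  rfl

theorem matπ_mulVec (v : Fin d → ℝ) (i : Fin 2) :
    (matπ bs P).mulVec v i = ip (comb bs v) (P i) := by
  rw [ip_comb]
  rfl

/-- equations for the basis elements suffice -/
theorem weak_of_basis (hPsi : PsiFacts) {y : SF} {c : Fin 2 → ℝ}
    (h : ∀ i, Bil w y (bs i : SF) + ∑ j, c j * ip (b j) (psi (bs i : SF)) = 0) :
    Weak b w n y c := by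
  set L : SNk 4 n →ₗ[ℝ] SF :=
    { toFun := fun η => psi (η : SF)
      map_add' := fun η ζ => hPsi.add n _ _ η.2.1 ζ.2.1
      map_smul' := fun r η => hPsi.smul n r _ η.2.1 } with hL
  set E : SNk 4 n →ₗ[ℝ] ℝ := (ipL (w * y + ∑ j, c j • b j)) ∘ₗ L with hE
  have hEapp : ∀ η : SNk 4 n, E η = Bil w y (η : SF) + ∑ j, c j * ip (b j) (psi (η : SF)) := by
    intro η
    change ipL (w * y + ∑ j, c j • b j) (psi (η : SF)) = _
    rw [map_add, LinearMap.add_apply, map_sum, LinearMap.sum_apply, ipL_apply, ← Bil_eq]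
    congr 1
    refine Finset.sum_congr rfl fun j _ => ?_
    rw [map_smul, LinearMap.smul_apply, ipL_apply, smul_eq_mul]
  have hE0 : E = 0 := bs.ext fun i => by rw [hEapp, h i]; rfl
  intro η hη
  have := hEapp ⟨η, hη⟩
  rw [hE0] at this
  exact this.symm

theorem weak_of_mulVec (hPsi : PsiFacts) {v : Fin d → ℝ} {c : Fin 2 → ℝ}
    (h : (matB bs w).mulVec v + (matβ bs b).mulVec c = 0) :
    Weak b w n (comb bs v) c := by
  refine weak_of_basis bs w b hPsi fun i => ?_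
  have h1 := congrFun h i
  rw [Pi.add_apply, matB_mulVec] at h1
  rw [← h1.trans (Pi.zero_apply i)]
  congr 1
  change ∑ j, c j * ip (b j) (psi (bs i : SF)) = ∑ j, ip (b j) (psi (bs i : SF)) * c j
  exact Finset.sum_congr rfl fun j _ => mul_comm _ _

theorem matM_det_ne_zero (hPsi : PsiFacts)
    (hinj : ∀ y ∈ SNk 4 n, ∀ c : Fin 2 → ℝ, Weak b w n y c → (∀ i, ip y (P i) = 0) →
      y = 0 ∧ c = 0) : (matM bs w P b).det ≠ 0 := by
  intro hdet
  obtain ⟨v, hv, hMv⟩ := Matrix.exists_mulVec_eq_zero_iff.2 hdet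
  rw [matM, Matrix.fromBlocks_mulVec] at hMv
  have e1 : (matB bs w).mulVec (v ∘ Sum.inl) + (matβ bs b).mulVec (v ∘ Sum.inr) = 0 := by
    funext i
    exact congrFun hMv (Sum.inl i)
  have e2 : ∀ i, (matπ bs P).mulVec (v ∘ Sum.inl) i = 0 := by
    intro i
    have := congrFun hMv (Sum.inr i)
    simpa using this
  obtain ⟨hy, hc⟩ := hinj _ (comb_mem bs (v ∘ Sum.inl)) (v ∘ Sum.inr)
    (weak_of_mulVec bs w b hPsi e1) fun i => by rw [← matπ_mulVec, e2 i]
  apply hv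
  funext i
  rcases i with i | i
  · exact congrFun (comb_eq_zero bs hy) i
  · exact congrFun hc i

/-- the Schur complement identity -/
theorem matM_schur (hPsi : PsiFacts) (hdet : (matM bs w P b).det ≠ 0) :
    ∃ C : Matrix (Fin 2) (Fin 2) ℝ, (matB bs w).det = (matM bs w P b).det * C.det ∧
      ∀ j : Fin 2, ∃ y ∈ SNk 4 n, Weak b w n y (fun i => C i j) ∧
        ∀ i, ip y (P i) = (1 : Matrix (Fin 2) (Fin 2) ℝ) i j := by
  set M := matM bs w P b with hM
  set K := M⁻¹ with hK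
  have hMK : M * K = 1 := Matrix.mul_nonsing_inv M (isUnit_iff_ne_zero.2 hdet)
  have hKb : K = Matrix.fromBlocks K.toBlocks₁₁ K.toBlocks₁₂ K.toBlocks₂₁ K.toBlocks₂₂ :=
    (Matrix.fromBlocks_toBlocks K).symm
  rw [hKb, hM, matM, Matrix.fromBlocks_multiply, ← Matrix.fromBlocks_one,
    Matrix.fromBlocks_inj] at hMK
  obtain ⟨-, e12, -, e22⟩ := hMK
  rw [Matrix.zero_mul, add_zero] at e22
  refine ⟨K.toBlocks₂₂, ?_, fun j => ⟨comb bs fun i => K.toBlocks₁₂ i j, comb_mem bs _, ?_, ?_⟩⟩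
  · have h1 : M * Matrix.fromBlocks 1 K.toBlocks₁₂ 0 K.toBlocks₂₂
        = Matrix.fromBlocks (matB bs w) 0 (matπ bs P) 1 := by
      rw [hM, matM, Matrix.fromBlocks_multiply, Matrix.fromBlocks_inj]
      refine ⟨by simp, e12, by simp, by simpa using e22⟩
    have h2 := congrArg Matrix.det h1
    rw [Matrix.det_mul, Matrix.det_fromBlocks_zero₂₁, Matrix.det_fromBlocks_zero₁₂,
      Matrix.det_one, Matrix.det_one, one_mul, mul_one] at h2
    exact h2.symm
  · refine weak_of_mulVec bs w b hPsi ?_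
    funext i
    exact congrFun (congrFun e12 i) j
  · intro i
    rw [← matπ_mulVec]
    exact congrFun (congrFun e22 i) j

end

/-- BORD -/
theorem bord_of (hLinen : LinenStatement) (hComp : CompStatement) (hDens : DensFacts)
    (hMode : ModeFacts) (hFam : FamFacts) (hWS : WSFacts) (hMN : MNFacts) (hPsi : PsiFacts) :
    BordStatement := by
  intro p₀ p₁ P b C₀ C₁ h0 h1 r0 r1 hbE hbM H1 H2 H3 hdet
  have hseg0 : seg p₀ p₁ 0 = p₀ := by simp [seg]
  have hseg1 : seg p₀ p₁ 1 = p₁ := by simp [seg]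
  have m0 : (0:ℝ) ∈ Icc (0:ℝ) 1 := ⟨le_rfl, zero_le_one⟩
  have m1 : (1:ℝ) ∈ Icc (0:ℝ) 1 := ⟨zero_le_one, le_rfl⟩
  have hC0 : C₀.det ≠ 0 := fun h => by rw [h, zero_mul] at hdet; exact lt_irrefl _ hdet
  have hC1 : C₁.det ≠ 0 := fun h => by rw [h, mul_zero] at hdet; exact lt_irrefl _ hdet
  have H2' : ∀ (y : ℍ → ℝ) (c : Fin 2 → ℝ), Cts y → IsU y → Mode 4 y →
      (∀ x : ℍ, x ≠ 0 → avgK (fun z => wf (seg p₀ p₁ 0) z * y z) x + ∑ i, c i * (b i) x = 0) →
      c = C₀.mulVec fun i => ip y (P i) := by rw [hseg0]; exact H2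
  have H3' : ∀ (y : ℍ → ℝ) (c : Fin 2 → ℝ), Cts y → IsU y → Mode 4 y →
      (∀ x : ℍ, x ≠ 0 → avgK (fun z => wf (seg p₀ p₁ 1) z * y z) x + ∑ i, c i * (b i) x = 0) →
      c = C₁.mulVec fun i => ip y (P i) := by rw [hseg1]; exact H3
  have kt : ∀ s ∈ Icc (0:ℝ) 1, ∀ C : Matrix (Fin 2) (Fin 2) ℝ, C.det ≠ 0 →
      (∀ (y : ℍ → ℝ) (c : Fin 2 → ℝ), Cts y → IsU y → Mode 4 y →
      (∀ x : ℍ, x ≠ 0 → avgK (fun z => wf (seg p₀ p₁ s) z * y z) x + ∑ i, c i * (b i) x = 0) →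
      c = C.mulVec fun i => ip y (P i)) → KerTriv 4 (wf (seg p₀ p₁ s)) := by
    intro s hs C hC H y hy hyU hyM hker
    have heq : ∀ x : ℍ, x ≠ 0 → avgK (fun z => wf (seg p₀ p₁ s) z * y z) x
        + ∑ i, (0 : Fin 2 → ℝ) i * (b i) x = 0 := fun x hx => by
      rw [hker x hx]; simp
    have h2 := H y 0 hy hyU hyM heq
    have h3 := Matrix.eq_zero_of_mulVec_eq_zero hC h2.symm
    exact (H1 s hs y 0 hy hyU hyM heq fun i => congrFun h3 i).1
  refine ⟨hseg0 ▸ kt 0 m0 C₀ hC0 H2', hseg1 ▸ kt 1 m1 C₁ hC1 H3', ?_⟩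
  obtain ⟨ε₀, hε₀, hnear₀⟩ := det_near C₀ hC0
  obtain ⟨ε₁, hε₁, hnear₁⟩ := det_near C₁ hC1
  obtain ⟨N₀, hN₀⟩ := bord_inj hLinen hComp hDens hMode hFam hWS hMN h0 h1 r0 r1 hbE hbM H1
  have L0 := fun j : Fin 2 => bord_lim hLinen hComp hDens hMode hFam hWS hMN h0 h1 r0 r1 hbE hbM
    m0 C₀ (H1 0 m0) H2' (fun i => (1 : Matrix (Fin 2) (Fin 2) ℝ) i j) hε₀
  have L1 := fun j : Fin 2 => bord_lim hLinen hComp hDens hMode hFam hWS hMN h0 h1 r0 r1 hbE hbM
    m1 C₁ (H1 1 m1) H3' (fun i => (1 : Matrix (Fin 2) (Fin 2) ℝ) i j) hε₁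
  choose A0 hA0 using L0
  choose A1 hA1 using L1
  refine ⟨max N₀ (max (max (A0 0) (A0 1)) (max (A1 0) (A1 1))), fun n hn => ?_⟩
  have hnN : N₀ ≤ n := (le_max_left _ _).trans hn
  have hn0 : ∀ j, A0 j ≤ n := by
    intro j
    refine le_trans ?_ ((le_max_left _ _).trans ((le_max_right _ _).trans hn))
    fin_cases j
    · exact le_max_left _ _
    · exact le_max_right _ _
  have hn1 : ∀ j, A1 j ≤ n := by
    intro j
    refine le_trans ?_ ((le_max_right _ _).trans ((le_max_right _ _).trans hn))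
    fin_cases j
    · exact le_max_left _ _
    · exact le_max_right _ _
  obtain ⟨d, ⟨bs⟩⟩ := exists_basis (MN n) (SNk 4 n) (hMN.finite n) fun _ hF => hF.1.1
  -- the bordered determinants do not vanish
  set f : ℝ → ℝ := fun s => (matM bs (wS (seg p₀ p₁ (clamp s))) P b).det with hf
  have hfne : ∀ s, f s ≠ 0 := fun s => matM_det_ne_zero bs _ P b hPsi
    fun y hy c => hN₀ n hnN _ (clamp_mem s) y hy c
  have hfcont : Continuous f := by
    refine Continuous.matrix_det ?_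
    refine Continuous.matrix_fromBlocks ?_ continuous_const continuous_const continuous_const
    refine continuous_matrix fun i j => ?_
    exact continuous_Bil hFam h0 h1 _ _
  have hfpos : 0 < f 0 * f 1 := by
    by_contra hneg
    have h2 : f 0 * f 1 < 0 := lt_of_le_of_ne (not_lt.1 hneg) (mul_ne_zero (hfne 0) (hfne 1))
    have h3 : (0:ℝ) ∈ uIcc (f 0) (f 1) := by
      rw [mem_uIcc]
      rcases mul_neg_iff.1 h2 with h4 | h4
      · exact Or.inr ⟨h4.2.le, h4.1.le⟩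
      · exact Or.inl ⟨h4.1.le, h4.2.le⟩
    obtain ⟨t, -, ht⟩ := intermediate_value_uIcc (hfcont.continuousOn (s := uIcc 0 1)) h3
    exact hfne t ht
  -- Schur complements
  obtain ⟨D0, hD0, hcol0⟩ := matM_schur bs (wS (seg p₀ p₁ (clamp 0))) P b hPsi (hfne 0)
  obtain ⟨D1, hD1, hcol1⟩ := matM_schur bs (wS (seg p₀ p₁ (clamp 1))) P b hPsi (hfne 1)
  have hs0 : 0 < D0.det * C₀.det := hnear₀ D0 fun i j => by
    obtain ⟨y, hy, hw, hP⟩ := hcol0 j
    rw [clamp_of_mem m0] at hw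
    have h5 := hA0 j n (hn0 j) y hy _ hw hP i
    have h6 : C₀.mulVec (fun i => (1 : Matrix (Fin 2) (Fin 2) ℝ) i j) i = C₀ i j := by
      change (C₀ * (1 : Matrix (Fin 2) (Fin 2) ℝ)) i j = C₀ i j
      rw [Matrix.mul_one]
    rwa [h6] at h5
  have hs1 : 0 < D1.det * C₁.det := hnear₁ D1 fun i j => by
    obtain ⟨y, hy, hw, hP⟩ := hcol1 j
    rw [clamp_of_mem m1] at hw
    have h5 := hA1 j n (hn1 j) y hy _ hw hP i
    have h6 : C₁.mulVec (fun i => (1 : Matrix (Fin 2) (Fin 2) ℝ) i j) i = C₁ i j := by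
      change (C₁ * (1 : Matrix (Fin 2) (Fin 2) ℝ)) i j = C₁ i j
      rw [Matrix.mul_one]
    rwa [h6] at h5
  have hDneg : D0.det * D1.det < 0 := by
    have h7 : 0 < (D0.det * D1.det) * (C₀.det * C₁.det) := by
      have := mul_pos hs0 hs1
      calc (0:ℝ) < D0.det * C₀.det * (D1.det * C₁.det) := this
        _ = _ := by ring
    by_contra h8
    have h9 := mul_nonpos_of_nonneg_of_nonpos (not_lt.1 h8) hdet.le
    exact absurd h7 (not_lt.2 h9)
  have hBneg : (matB bs (wS (seg p₀ p₁ (clamp 0)))).det *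
      (matB bs (wS (seg p₀ p₁ (clamp 1)))).det < 0 := by
    have e : (matB bs (wS (seg p₀ p₁ (clamp 0)))).det *
      (matB bs (wS (seg p₀ p₁ (clamp 1)))).det = (f 0 * f 1) * (D0.det * D1.det) := by
      rw [hD0, hD1]
      change f 0 * D0.det * (f 1 * D1.det) = _
      ring
    rw [e]
    exact mul_neg_of_pos_of_neg hfpos hDneg
  rw [clamp_of_mem m0, clamp_of_mem m1, hseg0, hseg1] at hBneg
  rcases mul_neg_iff.1 hBneg with h8 | h8
  · exact Or.inr (NegDet_congr (fun x hx => (wS_eq hWS h1 hx).symm) ⟨_, bs, h8.2⟩)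
  · exact Or.inl (NegDet_congr (fun x hx => (wS_eq hWS h0 hx).symm) ⟨_, bs, h8.1⟩)

end Pool.Agent.MP85963d.H86
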